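import Pool.Agent.W603.GR.Main

/-!
Subvarieties of quasi-projective varieties given by sums of few high powers of linear forms.
-/

set_option autoImplicit false

open FF MvPolynomial Pool.Agent.W603.LV Pool.Agent.W603.PV Pool.Agent.W603.GR
  Pool.Agent.W602.GT

namespace Pool.Agent.W603.GW

section defs

variable {k : Type} [Field k] {n : ℕ} {ι κ : Type}

/-- `K` is the function field, and `y` the generic point in homogeneous coordinates, of a closed
subvariety of dimension `w` of the quasi-projective variety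
`X = {F_i = 0 for all i, Q_j ≠ 0 for all j}` in `P^n`. -/
structure SubVarQ (F : ι → MvPolynomial (Fin (n + 1)) k) (Q : κ → MvPolynomial (Fin (n + 1)) k)
    (K : Type) [Field K] [Algebra k K] (w : ℕ) (y : Fin (n + 1) → K) : Prop where
  ne : y ≠ 0
  mem : ∀ i, val y (F i) = 0
  off : ∀ j, val y (Q j) ≠ 0
  gen : coords k y = ⊤
  dim : Algebra.trdeg k K = w

/-- The centre of the place `P`, in the closure of the subvariety with generic point `y`, lies on
one of the hypersurfaces `Q_j = 0`. -/
def OffAny (Q : κ → MvPolynomial (Fin (n + 1)) k) {K : Type} [Field K] [Algebra k K]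
    (y : Fin (n + 1) → K) (P : Place k K) : Prop :=
  ∃ j, OffQ (Q j) (Q j).totalDegree y P

end defs

variable {k K : Type} [Field k] [Field K] [Algebra k K] {n : ℕ} {ι κ : Type}

/-- the value of a linear form -/
noncomputable def lv (l : Fin (n + 1) → k) (y : Fin (n + 1) → K) : K :=
  ∑ i, algebraMap k K (l i) * y i

theorem lv_der (D : Derivation k K K) (l : Fin (n + 1) → k) (y : Fin (n + 1) → K) :
    lv l (fun i => D (y i)) = D (lv l y) := by
  unfold lv
  rw [map_sum]
  refine Finset.sum_congr rfl fun i _ => ?_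
  rw [D.leibniz, D.map_algebraMap, smul_zero, add_zero, smul_eq_mul]

theorem lv_lin (l : Fin (n + 1) → k) (y v : Fin (n + 1) → K) (c c' : K) :
    lv l (fun i => c * y i + c' * v i) = c * lv l y + c' * lv l v := by
  unfold lv
  simp only [Finset.mul_sum, ← Finset.sum_add_distrib]
  exact Finset.sum_congr rfl fun i _ => by ring

theorem val_pow {r d : ℕ} (l : Fin r → Fin (n + 1) → k) (y : Fin (n + 1) → K) :
    val y (∑ j, (∑ i, C (l j i) * X i) ^ d) = ∑ j, lv (l j) y ^ d := by
  unfold val lv
  rw [map_sum]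
  refine Finset.sum_congr rfl fun j _ => ?_
  rw [map_pow, map_sum]
  simp only [map_mul, aeval_C, aeval_X]

theorem hom_pow {r d : ℕ} (l : Fin r → Fin (n + 1) → k) :
    (∑ j, (∑ i, C (l j i) * X i) ^ d : MvPolynomial (Fin (n + 1)) k).IsHomogeneous d := by
  refine IsHomogeneous.sum _ _ _ fun j _ => ?_
  have h1 : (∑ i, C (l j i) * X i : MvPolynomial (Fin (n + 1)) k).IsHomogeneous 1 := by
    refine IsHomogeneous.sum _ _ _ fun i _ => ?_
    have h2 := (isHomogeneous_C (Fin (n + 1)) (l j i)).mul (isHomogeneous_X k i)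
    simpa using h2
  have h3 := h1.pow d
  simpa using h3

/-- **Waring varieties.** A subvariety of a quasi-projective variety given by sums of few high
powers of linear forms is of log general type, or there is a line through its generic point on
which the `Q_j` have at most one zero each. -/
theorem waring_log [IsAlgClosed k] [CharZero k] {F : ι → MvPolynomial (Fin (n + 1)) k}
    {Q : κ → MvPolynomial (Fin (n + 1)) k} {S N : ℕ} (hF : ∀ i, IsPowSum S N (F i))
    (hQ : ∀ j, IsPowSum (S - 1) N (Q j)) (hN1 : 1 ≤ N)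
    (hN : n * ((S + 1) * tn (S - 1)) ≤ N) {w : ℕ} (hw : 0 < w) {y : Fin (n + 1) → K}
    (hy : SubVarQ F Q K w y) (hgt : ¬ LogGeneralType k K w (OffAny Q y)) :
    ∃ (v : Fin (n + 1) → K) (m : κ → K), (∃ i j, y i * v j - y j * v i ≠ 0) ∧
      (∀ (c c' : K) (i : ι), val (fun l => c * y l + c' * v l) (F i) = 0) ∧
      ∀ (c c' : K) (j : κ), val (fun l => c * y l + c' * v l) (Q j) =
        val y (Q j) * (c + c' * m j) ^ (Q j).totalDegree := by
  classical
  have hgen : Algebra.IsAlgebraic (coords k y) K := by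
    rw [hy.gen]
    infer_instance
  have hwn := dim_le hy.ne hgen hy.dim
  have hK : CharZero K := charZero_of_injective_algebraMap (algebraMap k K).injective
  choose r d l hr hd hFe using hF
  choose r' d' l' hr' hd' hQe using hQ
  have hQne : ∀ j, Q j ≠ 0 := by
    intro j h0
    apply hy.off j
    rw [h0]
    unfold val
    rw [map_zero]
  have hdeg : ∀ j, (Q j).totalDegree = d' j := by
    intro j
    have h1 := hom_pow (d := d' j) (l' j)
    rw [← hQe j] at h1
    exact h1.totalDegree (hQne j)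
  have hS1 : ∀ j, r' j + 1 ≤ S := by
    intro j
    by_contra hcon
    have h1 := hr' j
    have h2 : r' j = 0 := by omega
    apply hQne j
    rw [hQe j]
    apply Finset.sum_eq_zero
    intro a
    exact absurd a.2 (by omega)
  have hd0 : ∀ e, 0 < d e := fun e => lt_of_lt_of_le hN1 (hd e)
  have hd0' : ∀ e, 0 < d' e := fun e => lt_of_lt_of_le hN1 (hd' e)
  have hvF : ∀ (x : Fin (n + 1) → K) i, val x (F i) = ∑ a, lv (l i a) x ^ d i := fun x i => by
    conv_lhs => rw [hFe i]
    exact val_pow _ _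
  have hvQ : ∀ (x : Fin (n + 1) → K) j, val x (Q j) = ∑ a, lv (l' j a) x ^ d' j := fun x j => by
    conv_lhs => rw [hQe j]
    exact val_pow _ _
  -- the terms
  let R : ι ⊕ κ → ℕ := Sum.elim r (fun j => r' j + 1)
  let T : ∀ e, Fin (R e) → K := fun e => match e with
    | Sum.inl i => fun a => lv (l i a) y ^ d i
    | Sum.inr j => Fin.cons (-val y (Q j)) fun a => lv (l' j a) y ^ d' j
  let E : ι ⊕ κ → ℕ := Sum.elim d d'
  let J : ι ⊕ κ → Type := fun e => {a : Fin (R e) // T e a ≠ 0}
  let g : ∀ e, J e → K := fun e a => T e a.1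
  have hg : ∀ e j, g e j ≠ 0 := fun e j => j.2
  have hsub : ∀ (e : ι ⊕ κ) (f : Fin (R e) → K),
      ∑ a, f a * T e a = ∑ a : J e, f a.1 * g e a := by
    intro e f
    rw [← Finset.sum_subtype (Finset.univ.filter fun a => T e a ≠ 0) (by simp)
      (fun a => f a * T e a), Finset.sum_filter_of_ne]
    intro a _ ha h0
    exact ha (by rw [h0, mul_zero])
  have hT0 : ∀ e, ∑ a, T e a = 0 := by
    rintro (i | j)
    · change ∑ a, lv (l i a) y ^ d i = 0
      rw [← hvF]
      exact hy.mem i
    · change ∑ a : Fin (r' j + 1), (Fin.cons (-val y (Q j)) fun a => lv (l' j a) y ^ d' j :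
        Fin (r' j + 1) → K) a = 0
      rw [Fin.sum_univ_succ]
      simp only [Fin.cons_zero, Fin.cons_succ]
      rw [← hvQ]
      ring
  have hsum : ∀ e, ∑ j, g e j = 0 := by
    intro e
    have h1 := hsub e (fun _ => 1)
    simp only [one_mul] at h1
    rw [← h1]
    exact hT0 e
  have hR : ∀ e, R e ≤ S := by
    rintro (i | j)
    · exact hr i
    · exact hS1 j
  have hE : ∀ e, N ≤ E e := by
    rintro (i | j)
    · exact hd i
    · exact hd' j
  have hcard : ∀ e, Fintype.card (J e) ≤ S := fun e =>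
    (Fintype.card_subtype_le _).trans (by rw [Fintype.card_fin]; exact hR e)
  have hord : ∀ P : Place k K, ¬ OffAny Q y P → ∀ e (a : J e), ∃ c : ℤ,
      P.ord (g e a) = E e * c := by
    intro P hP
    obtain ⟨i0, h0, hmin⟩ := exists_min P hy.ne
    rintro (i | j) ⟨a, ha⟩
    · refine ⟨P.ord (lv (l i a) y), ?_⟩
      change P.ord (lv (l i a) y ^ d i) = _
      rw [P.ord_pow]
      rfl
    · have hQo : P.ord (val y (Q j)) = d' j * P.ord (y i0) := by
        have h1 : ¬ OffQ (Q j) (Q j).totalDegree y P := fun h => hP ⟨j, h⟩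
        unfold OffQ at h1
        push Not at h1
        rw [hdeg] at h1
        have h2 := hom_pow (d := d' j) (l' j)
        rw [← hQe j] at h2
        exact le_antisymm (h1 i0 h0) (ord_form P h0 hmin h2 (hy.off j))
      change ∃ c : ℤ, P.ord ((Fin.cons (-val y (Q j)) fun a => lv (l' j a) y ^ d' j :
        Fin (r' j + 1) → K) a) = d' j * c
      change Fin (r' j + 1) at a
      refine Fin.cases ?_ (fun b => ?_) a
      · refine ⟨P.ord (y i0), ?_⟩
        rw [Fin.cons_zero, P.ord_neg, hQo]
      · refine ⟨P.ord (lv (l' j b) y), ?_⟩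
        rw [Fin.cons_succ, P.ord_pow]
  have hjump : ∀ P : Place k K, ¬ OffAny Q y P → ∀ e (a b : J e),
      P.ord (g e a) = P.ord (g e b) ∨
      ((w * ((S + 1) * tn (S - 1)) : ℕ) : ℤ) ≤ |P.ord (g e a) - P.ord (g e b)| := by
    intro P hP e a b
    obtain ⟨c, hc⟩ := hord P hP e a
    obtain ⟨c', hc'⟩ := hord P hP e b
    by_cases h : P.ord (g e a) = P.ord (g e b)
    · exact Or.inl h
    · right
      have h2 : (E e : ℤ) ∣ P.ord (g e a) - P.ord (g e b) := ⟨c - c', by rw [hc, hc']; ring⟩
      have h3 : w * ((S + 1) * tn (S - 1)) ≤ E e :=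
        ((Nat.mul_le_mul_right _ hwn).trans hN).trans (hE e)
      have h4 : ((w * ((S + 1) * tn (S - 1)) : ℕ) : ℤ) ≤ E e := by exact_mod_cast h3
      refine h4.trans ?_
      exact Int.le_of_dvd (abs_pos.2 (sub_ne_zero.2 h)) ((dvd_abs _ _).2 h2)
  rcases system hw hy.dim g hg hsum hcard (OffAny Q y) hjump with h | ⟨D, hD, hR'⟩
  · exact absurd h hgt
  have hpow : ∀ (e : ℕ) (x : K), 0 < e → x ≠ 0 → D (x ^ e) = x ^ e * (e * (D x / x)) := by
    intro e x he hx
    rw [D.leibniz_pow]
    obtain ⟨q, rfl⟩ : ∃ q, e = q + 1 := ⟨e - 1, by omega⟩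
    simp only [nsmul_eq_mul, smul_eq_mul, Nat.add_sub_cancel]
    field_simp
    ring
  -- the weighted sums
  have hwt : ∀ e (c c' : K), ∑ a : Fin (R e),
      (c + c' * (D (T e a) / T e a / E e)) ^ E e * T e a = 0 := by
    intro e c c'
    rw [hsub e (fun a => (c + c' * (D (T e a) / T e a / E e)) ^ E e)]
    obtain ⟨R0, hRe, hRD, hRs⟩ := hR' e
    refine weighted_sum R0 hRe (g e)
      (fun a => (c + c' * (D (T e a.1) / T e a.1 / E e)) ^ E e) (fun a b hab => ?_) hRs
    have h1 := hRD a b hab
    have ha := hg e a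
    have hb := hg e b
    change T e a.1 ≠ 0 at ha
    change T e b.1 ≠ 0 at hb
    change D (T e a.1) * T e b.1 = T e a.1 * D (T e b.1) at h1
    have h2 : D (T e a.1) / T e a.1 = D (T e b.1) / T e b.1 := by
      rw [div_eq_div_iff ha hb]
      linear_combination h1
    rw [h2]
  refine ⟨fun i => D (y i), fun j => D (val y (Q j)) / val y (Q j) / d' j, moves hgen hD, ?_, ?_⟩
  · intro c c' i
    rw [hvF]
    have h1 := hwt (Sum.inl i) c c'
    change ∑ a : Fin (r i), (c + c' * (D (lv (l i a) y ^ d i) / lv (l i a) y ^ d i / d i)) ^ d i *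
      lv (l i a) y ^ d i = 0 at h1
    rw [← h1]
    refine Finset.sum_congr rfl fun a _ => ?_
    rw [lv_lin, lv_der]
    by_cases ha : lv (l i a) y = 0
    · rw [ha, map_zero, mul_zero, mul_zero, add_zero, zero_pow (hd0 i).ne', mul_zero]
    · have hdi : (d i : K) ≠ 0 := by exact_mod_cast (hd0 i).ne'
      rw [hpow _ _ (hd0 i) ha, ← mul_pow]
      congr 1
      field_simp
  · intro c c' j
    rw [hvQ, hdeg]
    have h1 := hwt (Sum.inr j) c c'
    change ∑ a : Fin (r' j + 1), (c + c' * (D ((Fin.cons (-val y (Q j))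
      fun a => lv (l' j a) y ^ d' j : Fin (r' j + 1) → K) a) / (Fin.cons (-val y (Q j))
      fun a => lv (l' j a) y ^ d' j : Fin (r' j + 1) → K) a / d' j)) ^ d' j * (Fin.cons (-val y (Q j))
      fun a => lv (l' j a) y ^ d' j : Fin (r' j + 1) → K) a = 0 at h1
    rw [Fin.sum_univ_succ] at h1
    simp only [Fin.cons_zero, Fin.cons_succ] at h1
    have h2 : D (-val y (Q j)) / -val y (Q j) = D (val y (Q j)) / val y (Q j) := by
      rw [map_neg, neg_div_neg_eq]
    rw [h2] at h1
    have h3 : ∑ a, lv (l' j a) (fun l => c * y l + c' * D (y l)) ^ d' j =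
        ∑ a, (c + c' * (D (lv (l' j a) y ^ d' j) / lv (l' j a) y ^ d' j / d' j)) ^ d' j *
          lv (l' j a) y ^ d' j := by
      refine Finset.sum_congr rfl fun a _ => ?_
      rw [lv_lin, lv_der]
      by_cases ha : lv (l' j a) y = 0
      · rw [ha, map_zero, mul_zero, mul_zero, add_zero, zero_pow (hd0' j).ne', mul_zero]
      · have hdi : (d' j : K) ≠ 0 := by exact_mod_cast (hd0' j).ne'
        rw [hpow _ _ (hd0' j) ha, ← mul_pow]
        congr 1
        field_simp
    rw [h3]
    linear_combination h1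

end Pool.Agent.W603.GW
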